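import Pool.Agent.GTO.Defs

/-! Squad GTO: finiteness of the type of labelled data, and counting by fibres. -/

namespace Pool.Agent.GTO.H38

open Finset
open scoped Classical

theorem finite_dat (ι : Type) [Fintype ι] : Finite (Dat ι) := by
  let g : Dat ι → (ι → Bool) × ι × ι × ι × ι × ι × ι :=
    fun d => (d.s, d.u, d.v, d.w, d.u', d.v', d.w')
  refine Finite.of_injective g ?_
  intro d e h
  simp only [g, Prod.mk.injEq] at h
  obtain ⟨h1, h2, h3, h4, h5, h6, h7⟩ := h
  cases d; cases e
  simp_all

theorem ncard_fib {ι : Type} [Fintype ι] (P : Dat ι → Prop) :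
    {d : Dat ι | P d}.ncard = ∑ p : ι, {d : Dat ι | P d ∧ d.u = p}.ncard := by
  have := finite_dat ι
  have := Fintype.ofFinite (Dat ι)
  have key : ∀ Q : Dat ι → Prop, {d : Dat ι | Q d}.ncard = (univ.filter Q).card := by
    intro Q
    rw [← Set.ncard_coe_finset]
    congr 1
    ext d
    simp
  rw [key]
  simp_rw [key]
  rw [Finset.card_eq_sum_card_fiberwise (f := Dat.u) (t := univ) (by intro x _; simp)]
  refine Finset.sum_congr rfl ?_
  intro p _
  congr 1
  ext d
  simp [Finset.mem_filter]

theorem ncard_split {ι : Type} [Fintype ι] (P Q : Dat ι → Prop) :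
    {d : Dat ι | P d}.ncard = {d : Dat ι | P d ∧ Q d}.ncard + {d : Dat ι | P d ∧ ¬ Q d}.ncard := by
  have := finite_dat ι
  rw [← Set.ncard_union_eq]
  · congr 1
    ext d
    simp only [Set.mem_union, Set.mem_ofPred_eq]
    tauto
  · rw [Set.disjoint_left]
    rintro d ⟨_, h1⟩ ⟨_, h2⟩
    exact h2 h1

theorem ncard_le_four {ι : Type} [Fintype ι] (P : Dat ι → Prop) (g : Dat ι → Finset ι)
    (T : Finset (Finset ι)) (hT : ∀ d, P d → g d ∈ T)
    (h4 : ∀ ℓ, {d : Dat ι | P d ∧ g d = ℓ}.ncard ≤ 4) :
    {d : Dat ι | P d}.ncard ≤ 4 * T.card := by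
  have := finite_dat ι
  have := Fintype.ofFinite (Dat ι)
  have key : ∀ Q : Dat ι → Prop, {d : Dat ι | Q d}.ncard = (univ.filter Q).card := by
    intro Q
    rw [← Set.ncard_coe_finset]
    congr 1
    ext d
    simp
  rw [key, Finset.card_eq_sum_card_fiberwise (f := g) (t := T)
    (by intro x hx; exact hT x (by simpa using hx))]
  calc ∑ b ∈ T, ((univ.filter P).filter fun a => g a = b).card ≤ ∑ b ∈ T, 4 := by
        refine Finset.sum_le_sum ?_
        intro b _
        have := h4 b
        rw [key] at this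
        refine le_trans (le_of_eq ?_) this
        congr 1
        ext d
        simp [Finset.mem_filter]
    _ = 4 * T.card := by rw [Finset.sum_const, smul_eq_mul, mul_comm]

end Pool.Agent.GTO.H38
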