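import Pool.Agent.GTO.StmtsB

/-! Squad GTO, row DIJ. -/

namespace Pool.Agent.GTO.H38

open Finset
open scoped Classical

theorem dij : DijStmt := by
  intro ι _ a c G _ φ H hC
  refine ⟨?_, ?_, ?_, ?_⟩
  · rw [Finset.disjoint_left]
    intro p hp hq
    simp only [MISo, TANo, MM, Finset.mem_filter, Finset.mem_univ, true_and] at hp hq
    refine hp.2.2.2.2 p.1 hp.1 ?_
    have h := hq.2.2.2
    rw [eq_comm, ← sub_eq_zero]
    rw [← neg_eq_zero] at h
    rw [← h]
    abel
  · rw [Finset.disjoint_left]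
    intro p hp hq
    simp only [MISo, TANs, MM, Finset.mem_filter, Finset.mem_univ, true_and] at hp hq
    refine hp.2.2.2.2 p.2 hp.2.1 ?_
    have h := hq.2.2.2
    rw [eq_comm, ← sub_eq_zero]
    rw [← neg_eq_zero] at h
    rw [← h]
    abel
  · rw [Finset.disjoint_left]
    intro p hp hq
    simp only [TANo, TANs, Finset.mem_filter, Finset.mem_univ, true_and] at hp hq
    have h1 := hp.2.2.2
    have h2 := hq.2.2.2
    have h3 : φ (a p.1) = φ (a p.2) := by
      rw [← sub_eq_zero]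
      have h4 : φ (a p.1) - φ (a p.2) = (φ (a p.1) + φ (a p.1) + φ (a p.2)) -
          (φ (a p.2) + φ (a p.2) + φ (a p.1)) := by abel
      rw [h4, h1, h2, sub_zero]
    have m1 := hp.1
    have m2 := hp.2.1
    simp only [QQ, Finset.mem_filter, Finset.mem_univ, true_and] at m1 m2
    exact hC.pi p.1 p.2 hp.2.2.1 ((hC.grp.par _ _ m1.1 m2.1).1 h3)
  · refine Finset.card_bij (fun p _ => (p.2, p.1)) ?_ ?_ ?_
    · intro p hp
      simp only [TANo, TANs, Finset.mem_filter, Finset.mem_univ, true_and] at hp ⊢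
      exact ⟨hp.2.1, hp.1, fun e => hp.2.2.1 e.symm, hp.2.2.2⟩
    · intro p _ q _ h
      rw [Prod.mk.injEq] at h
      exact Prod.ext h.2 h.1
    · intro p hp
      refine ⟨(p.2, p.1), ?_, rfl⟩
      simp only [TANo, TANs, Finset.mem_filter, Finset.mem_univ, true_and] at hp ⊢
      exact ⟨hp.2.1, hp.1, fun e => hp.2.2.1 e.symm, hp.2.2.2⟩

end Pool.Agent.GTO.H38
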