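import Pool.Agent.GTO.StmtsC
import Pool.Agent.Helper38_GTO.Fin

/-! Squad GTO: module ST1 (one cubic contains more than half of the points). -/

namespace Pool.Agent.GTO.H38

open Finset
open scoped Classical

/-- size of the lines -/
theorem line_le (hBas : BasStmt) {ι : Type} [Fintype ι] (a : ι → V) (hPI : PI a)
    (n : ℕ) (hD : D2 a ≤ 2 * n) (hn : 120000 ≤ n) (i j : ι) (hij : i ≠ j) :
    (ln a i j).card ≤ Nat.sqrt (2 * n) + 1 := by
  obtain ⟨-, -, -, -, -, hB⟩ := hBas
  obtain ⟨-, -, -, -, -, hDD, -⟩ := hB ι a hPI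
  by_cases h3 : (ln a i j).card = 3
  · rw [h3]
    have : 2 ≤ Nat.sqrt (2 * n) := by
      rw [Nat.le_sqrt]
      omega
    omega
  · have hmem : ln a i j ∈ (lns a).filter (fun ℓ => ℓ.card ≠ 3) := by
      rw [mem_filter]
      refine ⟨?_, h3⟩
      unfold lns
      exact mem_image.2 ⟨(i, j), by simp [hij], rfl⟩
    have h1 : (ln a i j).card * ((ln a i j).card - 1) ≤ D2 a := by
      rw [hDD]
      exact Finset.single_le_sum (f := fun ℓ : Finset ι => ℓ.card * (ℓ.card - 1))
        (fun _ _ => Nat.zero_le _) hmem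
    have h2 : ((ln a i j).card - 1) * ((ln a i j).card - 1) ≤ 2 * n := by
      refine le_trans ?_ (le_trans h1 hD)
      exact Nat.mul_le_mul_right _ (Nat.sub_le _ _)
    have h4 : (ln a i j).card - 1 ≤ Nat.sqrt (2 * n) := by
      rw [Nat.le_sqrt]
      exact h2
    omega

theorem num_L (n N : ℕ) (hn : 120000 ≤ n) (hN : N = n / 115) :
    3 * (Nat.sqrt (2 * n) + 1) < 2 * (N - 1) + 4 ∧ Nat.sqrt (2 * n) + 1 < N - 1 := by
  have hs : Nat.sqrt (2 * n) * Nat.sqrt (2 * n) ≤ 2 * n := Nat.sqrt_le _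
  generalize Nat.sqrt (2 * n) = s at *
  have hN1 : 115 * N ≤ n := by omega
  have hN2 : n < 115 * N + 115 := by omega
  have hN3 : 1043 ≤ N := by omega
  constructor
  · by_contra h
    push Not at h
    have h1 : 2 * N - 1 ≤ 3 * s := by omega
    have h2 : (2 * N - 1) * (2 * N - 1) ≤ (3 * s) * (3 * s) := Nat.mul_le_mul h1 h1
    obtain ⟨M, rfl⟩ : ∃ M, N = M + 1 := ⟨N - 1, by omega⟩
    have h3 : 2 * (M + 1) - 1 = 2 * M + 1 := by omega
    rw [h3] at h2
    nlinarith
  · by_contra h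
    push Not at h
    have h1 : N - 2 ≤ s := by omega
    have h2 : (N - 2) * (N - 2) ≤ s * s := Nat.mul_le_mul h1 h1
    obtain ⟨M, rfl⟩ : ∃ M, N = M + 2 := ⟨N - 2, by omega⟩
    have h3 : M + 2 - 2 = M := by omega
    rw [h3] at h2
    nlinarith

theorem ne_uv {ι : Type} [Fintype ι] (a : ι → V) (d : Dat ι) (hd : Good a d) : d.u ≠ d.v := by
  intro h
  have := hd.1
  simp only [List.nodup_cons, List.mem_cons] at this
  tauto

/-- the cubic of a good datum -/
theorem cubic_of (hBas : BasStmt) (hRun : RunStmt) (hCub : CubStmt) (hIrd : IrdStmt)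
    {ι : Type} [Fintype ι] (a : ι → V) (hPI : PI a) (n : ℕ) (hnc : n = Fintype.card ι)
    (hn : 120000 ≤ n) (hD : D2 a ≤ 2 * n) (N : ℕ) (hN : N = n / 115) (d : Dat ι)
    (hd : NGood a N d) (hR : d.u ∉ Rich a) :
    ∃ c : Fin 10 → ℝ, NoLine c ∧ d.u ∈ Zc a c ∧ d.v ∈ Zc a c ∧ d.w' ∈ Zc a c ∧
      2 * N + 4 ≤ (Zc a c).card := by
  obtain ⟨hgood, f, hf0, hf⟩ := hd
  have hN3 : 1043 ≤ N := by omega
  have h2N : 2 * N + 5 < Fintype.card ι := by omega
  obtain ⟨Gm, G1, G2, hrun⟩ := hRun ι a hPI N f h2N (by omega) hf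
  rw [hf0] at hrun
  obtain ⟨c, hc0, hcO, hcm, hc1, hc2, hcA⟩ := hCub ι a hPI (N - 1) d.u Gm G1 G2 _ _ hrun (by omega)
  obtain ⟨hL1, hL2⟩ := num_L n N hn hN
  have hsq : 1 ≤ Nat.sqrt (2 * n) := by
    rw [Nat.le_sqrt]
    omega
  have hline : NoLine c := hIrd ι a hPI (N - 1) (Nat.sqrt (2 * n) + 1) d.u Gm G1 G2 _ _ c hrun
    (by omega) hR (by omega) (fun i j hij => line_le hBas a hPI n hD hn i j hij) hL1 hL2 hc0
    hcO hcm hc1 hc2 hcA
  have hNN : N - 1 + 1 = N := by omega
  rw [hNN] at hcA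
  have hA : ∀ i ≤ N, (f i).v ∈ Zc a c ∧ (f i).w' ∈ Zc a c := by
    intro i hi
    simp only [Zc, mem_filter, mem_univ, true_and]
    exact hcA i hi
  have hO : d.u ∈ Zc a c := by simp only [Zc, mem_filter, mem_univ, true_and]; exact hcO
  have hG1 : G1 ∈ Zc a c := by simp only [Zc, mem_filter, mem_univ, true_and]; exact hc1
  refine ⟨c, hline, hO, ?_, ?_, ?_⟩
  · have := (hA 0 (by omega)).1
    rwa [hf0] at this
  · have := (hA 0 (by omega)).2
    rwa [hf0] at this
  · obtain ⟨-, -, -, -, hdis, hnd, hne, -⟩ := hrun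
    rw [hNN] at hdis hne
    let g : Fin (N + 1) × Bool → ι := fun x => if x.2 then (f x.1).v else (f x.1).w'
    have hginj : Function.Injective g := by
      rintro ⟨i, bi⟩ ⟨j, bj⟩ h
      have hi : (i : ℕ) ≤ N := by omega
      have hj : (j : ℕ) ≤ N := by omega
      simp only [g] at h
      cases bi <;> cases bj <;> simp only [if_true, Bool.false_eq_true, if_false] at h
      · by_cases hij : (i : ℕ) = j
        · have : i = j := Fin.ext hij
          rw [this]
        · exact absurd h (((hdis i hi j hj).2 hij).2)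
      · exact absurd h.symm ((hdis j hj i hi).1)
      · exact absurd h ((hdis i hi j hj).1)
      · by_cases hij : (i : ℕ) = j
        · have : i = j := Fin.ext hij
          rw [this]
        · exact absurd h (((hdis i hi j hj).2 hij).1)
    have hsub : univ.image g ∪ {d.u, G1} ⊆ Zc a c := by
      intro x hx
      rw [mem_union] at hx
      rcases hx with hx | hx
      · obtain ⟨⟨i, b⟩, -, rfl⟩ := mem_image.1 hx
        have hi : (i : ℕ) ≤ N := by omega
        cases b
        · simpa [g] using (hA i hi).2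
        · simpa [g] using (hA i hi).1
      · rw [mem_insert, mem_singleton] at hx
        rcases hx with rfl | rfl
        · exact hO
        · exact hG1
    have hOG : d.u ≠ G1 := by
      intro h
      simp only [List.nodup_cons, List.mem_cons] at hnd
      tauto
    have hdisj : Disjoint (univ.image g) ({d.u, G1} : Finset ι) := by
      rw [Finset.disjoint_left]
      intro x hx hx2
      obtain ⟨⟨i, b⟩, -, rfl⟩ := mem_image.1 hx
      have hi : (i : ℕ) ≤ N := by omega
      have := hne i hi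
      rw [mem_insert, mem_singleton] at hx2
      cases b
      · simp only [g, Bool.false_eq_true, if_false] at hx2
        rcases hx2 with h | h
        · exact this.2.2.2.1 h
        · exact this.2.2.2.2.2 h
      · simp only [g, if_true] at hx2
        rcases hx2 with h | h
        · exact this.1 h
        · exact this.2.2.1 h
    have hcard := Finset.card_le_card hsub
    rw [Finset.card_union_of_disjoint hdisj, Finset.card_image_of_injective _ hginj,
      Finset.card_pair hOG, Finset.card_univ, Fintype.card_prod, Fintype.card_fin,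
      Fintype.card_bool] at hcard
    omega

theorem st1 (hBas : BasStmt) (hCnn : CnnStmt) (hLvx : LvxStmt) (hRun : RunStmt)
    (hCub : CubStmt) (hZzz : ZzzStmt) (hIrd : IrdStmt) (hFam : FamStmt) (hNum : NumStmt)
    (hEbd : EbdStmt) (hGdw : GdwStmt) : St1Stmt := by
  intro ι _ a hPI hSpn hn hD
  obtain ⟨n, hnc⟩ : ∃ n, n = Fintype.card ι := ⟨_, rfl⟩
  rw [← hnc] at hn hD ⊢
  obtain ⟨N, hN⟩ : ∃ N, N = n / 115 := ⟨_, rfl⟩
  have hBas6 := hBas.2.2.2.2.2 ι a hPI
  obtain ⟨hB1, hB2, -, hB4, -, -, hB7⟩ := hBas6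
  obtain ⟨hZ1, hZ2, -⟩ := hZzz ι a hPI
  obtain ⟨hE1, hE2⟩ := hEbd ι a hPI hSpn
  obtain ⟨hL1, hL2⟩ := hLvx ι a hPI (by omega)
  -- the family
  let F : Finset (Finset ι) := univ.filter fun C =>
    ∃ c : Fin 10 → ℝ, NoLine c ∧ Zc a c = C ∧ 2 * N + 4 ≤ C.card
  have hF1 : ∀ C ∈ F, 2 * N + 4 ≤ C.card := by
    intro C hC
    obtain ⟨c, -, -, h⟩ := (mem_filter.1 hC).2
    exact h
  have hF2 : ∀ C ∈ F, ∀ C' ∈ F, C ≠ C' → (C ∩ C').card ≤ 9 := by
    intro C hC C' hC' hne
    obtain ⟨c, hc, rfl, -⟩ := (mem_filter.1 hC).2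
    obtain ⟨c', hc', rfl, -⟩ := (mem_filter.1 hC').2
    by_contra h
    push Not at h
    exact hne (hZ1 c c' hc (hZ2 c' hc') (by omega)).1
  obtain ⟨-, hS⟩ := hFam ι F (2 * N + 4) (by omega) (by omega) hF1 hF2
  set S : Finset ι := univ.filter fun p => ∃ C ∈ F, ∃ C' ∈ F, C ≠ C' ∧ p ∈ C ∧ p ∈ C' with hSdef
  -- the counting function
  let bd : ι → ℕ := fun p => {d : Dat ι | (Good a d ∧ ¬ NGood a N d) ∧ d.u = p}.ncard
  let bf : ι → ℕ := fun p =>
    (univ.filter fun σ => Tope a σ ∧ Tope a (flp σ p) ∧ ¬ IsGood a σ).card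
  let ng : ι → ℕ := fun p => bd p + bf p
  have hsum1 : ∑ p, bd p ≤ 6 * N * EE a := by
    have h := hCnn ι a hPI N
    rw [ncard_fib] at h
    exact h
  have hsum2 : ∑ p, bf p = BF a := by
    unfold BF
    rw [Finset.card_eq_sum_card_fiberwise (f := Prod.snd) (t := univ) (by intro x _; simp)]
    refine Finset.sum_congr rfl ?_
    intro p _
    simp only [bf]
    refine Finset.card_bij (fun σ _ => (σ, p)) ?_ ?_ ?_
    · intro σ hσ
      rw [mem_filter] at hσ
      rw [mem_filter, mem_filter]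
      exact ⟨⟨mem_univ _, hσ.2⟩, rfl⟩
    · intro σ _ τ _ h
      exact (Prod.mk.inj h).1
    · rintro ⟨σ, q⟩ h
      rw [mem_filter, mem_filter] at h
      obtain ⟨⟨-, h⟩, rfl⟩ := h
      exact ⟨σ, by rw [mem_filter]; exact ⟨mem_univ _, h⟩, rfl⟩
  set R := (Rich a).card with hRdef
  have hEE : EE a + 22 * R ≤ 16 * n := by omega
  obtain ⟨hRn, hnum⟩ := hNum n N R hn hN (by omega)
  -- choice of p
  let W : Finset ι := univ \ (Rich a ∪ S)
  have hW : n - R - 19305 ≤ W.card := by
    simp only [W]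
    rw [Finset.card_sdiff_of_subset (Finset.subset_univ _), Finset.card_univ, ← hnc]
    have := Finset.card_union_le (Rich a) S
    omega
  have hsumW : ∑ p ∈ W, ng p ≤ 6 * N * EE a + BF a := by
    calc ∑ p ∈ W, ng p ≤ ∑ p, ng p := Finset.sum_le_univ_sum_of_nonneg (fun _ => Nat.zero_le _)
      _ = ∑ p, bd p + ∑ p, bf p := Finset.sum_add_distrib
      _ ≤ _ := by rw [hsum2]; omega
  obtain ⟨p, hpW, hpn⟩ : ∃ p ∈ W, ng p ≤ n - 460 := by
    by_contra hcon
    push Not at hcon
    have h1 : W.card * (n - 460 + 1) ≤ ∑ p ∈ W, ng p := by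
      rw [← smul_eq_mul, ← Finset.sum_const]
      exact Finset.sum_le_sum fun p hp => hcon p hp
    have h2 : (n - R - 19305) * (n - 460 + 1) ≤ W.card * (n - 460 + 1) :=
      Nat.mul_le_mul_right _ hW
    have h3 : (n - R - 19305) * (n - 460 + 1) ≤ 6 * N * EE a + BF a :=
      le_trans h2 (le_trans h1 hsumW)
    have h4 : ((n : ℤ) - R - 19305) * (n - 460 + 1) ≤ 6 * N * EE a + BF a := by
      have h5 : ((n - R - 19305 : ℕ) : ℤ) = (n : ℤ) - R - 19305 := by omega
      have h6 : ((n - 460 + 1 : ℕ) : ℤ) = (n : ℤ) - 460 + 1 := by omega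
      rw [← h5, ← h6]
      exact_mod_cast h3
    have h7 : (EE a : ℤ) ≤ 16 * n - 22 * R := by omega
    have h8 : (BF a : ℤ) ≤ 32 * n := by omega
    have h9 : (6 * (N : ℤ)) * EE a ≤ (6 * (N : ℤ)) * (16 * n - 22 * R) :=
      mul_le_mul_of_nonneg_left h7 (by positivity)
    have h10 : (0 : ℤ) < (n : ℤ) - R - 19305 := by omega
    nlinarith
  have hpR : p ∉ Rich a := by
    intro h
    exact (mem_sdiff.1 hpW).2 (mem_union_left _ h)
  have hpS : p ∉ S := by
    intro h
    exact (mem_sdiff.1 hpW).2 (mem_union_right _ h)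
  -- the number of good data at p
  have hrr : {d : Dat ι | NGood a N d ∧ d.u = p}.ncard + ng p = 4 * rr a p := by
    have h1 := hL1 p
    have h2 := ncard_split (fun d : Dat ι => Good a d ∧ d.u = p) (fun d => NGood a N d)
    have h3 : {d : Dat ι | (Good a d ∧ d.u = p) ∧ NGood a N d}.ncard =
        {d : Dat ι | NGood a N d ∧ d.u = p}.ncard := by
      congr 1
      ext d
      simp only [Set.mem_ofPred_eq]
      constructor
      · rintro ⟨⟨_, h⟩, h'⟩
        exact ⟨h', h⟩
      · rintro ⟨h, h'⟩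
        exact ⟨⟨h.1, h'⟩, h⟩
    have h4 : {d : Dat ι | (Good a d ∧ d.u = p) ∧ ¬ NGood a N d}.ncard = bd p := by
      simp only [bd]
      congr 1
      ext d
      simp only [Set.mem_ofPred_eq]
      constructor
      · rintro ⟨⟨h1, h2⟩, h3⟩
        exact ⟨⟨h1, h3⟩, h2⟩
      · rintro ⟨⟨h1, h2⟩, h3⟩
        exact ⟨⟨h1, h3⟩, h2⟩
    rw [h3, h4] at h2
    simp only [ng, bf]
    omega
  -- left lines
  let Lf : Finset (Finset ι) := (lns a).filter fun ℓ => p ∈ ℓ ∧
    ∃ d : Dat ι, NGood a N d ∧ d.u = p ∧ ln a d.u d.v = ℓ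
  have hne_uv : ∀ d : Dat ι, Good a d → d.u ≠ d.v := fun d hd => ne_uv a d hd
  have hLf4 : {d : Dat ι | NGood a N d ∧ d.u = p}.ncard ≤ 4 * Lf.card := by
    refine ncard_le_four (fun d => NGood a N d ∧ d.u = p) (fun d => ln a d.u d.v) Lf ?_ ?_
    · rintro d ⟨hd, hdu⟩
      have hne := hne_uv d hd.1
      simp only [Lf, mem_filter]
      refine ⟨?_, ?_, d, hd, hdu, rfl⟩
      · unfold lns
        exact mem_image.2 ⟨(d.u, d.v), by simp [hne], rfl⟩
      · rw [← hdu]
        exact (hB2 _ _ hne).1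
    · intro ℓ
      have := finite_dat ι
      refine le_trans (Set.ncard_le_ncard ?_ (Set.toFinite _)) (hL2 p ℓ)
      rintro d ⟨⟨hd, hdu⟩, hl⟩
      exact ⟨hd.1, hdu, hl⟩
  let U : Finset (Finset ι) := ((lns a).filter fun ℓ => p ∈ ℓ) \ Lf
  have hLfsub : Lf ⊆ (lns a).filter fun ℓ => p ∈ ℓ := by
    intro ℓ hℓ
    rw [mem_filter] at hℓ ⊢
    exact ⟨hℓ.1, hℓ.2.1⟩
  have hU : 4 * U.card ≤ ng p := by
    simp only [U]
    rw [Finset.card_sdiff_of_subset hLfsub]
    have h1 : ((lns a).filter fun ℓ => p ∈ ℓ).card = rr a p := rfl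
    have h2 := Finset.card_le_card hLfsub
    rw [h1] at h2 ⊢
    omega
  -- uncovered points
  let Q : Finset ι := univ.filter fun q => q ≠ p ∧ ln a p q ∉ Lf
  have hQ : 2 * Q.card ≤ ng p := by
    refine le_trans ?_ hU
    have h1 : Q ⊆ U.biUnion fun ℓ => ℓ.erase p := by
      intro q hq
      obtain ⟨hqp, hqL⟩ := (mem_filter.1 hq).2
      rw [mem_biUnion]
      refine ⟨ln a p q, ?_, ?_⟩
      · simp only [U, mem_sdiff, mem_filter]
        refine ⟨⟨?_, (hB2 p q hqp.symm).1⟩, hqL⟩
        unfold lns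
        exact mem_image.2 ⟨(p, q), by simp [hqp.symm], rfl⟩
      · rw [mem_erase]
        exact ⟨hqp, (hB2 p q hqp.symm).2⟩
    have h2 : Q.card ≤ 2 * U.card := by
      refine le_trans (Finset.card_le_card h1) ?_
      refine le_trans Finset.card_biUnion_le ?_
      rw [mul_comm, ← smul_eq_mul, ← Finset.sum_const]
      refine Finset.sum_le_sum ?_
      intro ℓ hℓ
      simp only [U, mem_sdiff, mem_filter] at hℓ
      obtain ⟨⟨hℓ1, hℓ2⟩, -⟩ := hℓ
      rw [Finset.card_erase_of_mem hℓ2]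
      have hℓ3 : ℓ.card ≤ 3 := by
        by_contra h
        push Not at h
        apply hpR
        simp only [Rich, mem_filter, mem_univ, true_and]
        have : 1 < ℓ.card := by omega
        obtain ⟨q, hq, hqp⟩ := Finset.exists_mem_ne this p
        refine ⟨q, hqp, ?_⟩
        obtain ⟨⟨i, j⟩, hij, hij2⟩ := mem_image.1 hℓ1
        simp only [mem_filter, mem_univ, true_and] at hij
        have hij3 : ln a i j = ℓ := hij2
        rw [← hij3] at hℓ2 hq h
        rw [hB1 i j p q hij hqp.symm hℓ2 hq]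
        omega
      omega
    omega
  -- all the left lines lie in one member of the family
  by_cases hemp : ∃ d0 : Dat ι, NGood a N d0 ∧ d0.u = p
  · obtain ⟨d0, hd0, hd0u⟩ := hemp
    obtain ⟨c, hc, hcu, -, -, hcM⟩ := cubic_of hBas hRun hCub hIrd a hPI n hnc hn hD N hN d0 hd0
      (by rw [hd0u]; exact hpR)
    refine ⟨c, hc, ?_⟩
    have hCF : Zc a c ∈ F := by
      simp only [F, mem_filter, mem_univ, true_and]
      exact ⟨c, hc, rfl, hcM⟩
    have hsub : univ \ Zc a c ⊆ Q := by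
      intro q hq
      have hq' : q ∉ Zc a c := (mem_sdiff.1 hq).2
      have hqp : q ≠ p := by
        rintro rfl
        rw [← hd0u] at hq'
        exact hq' hcu
      simp only [Q, mem_filter, mem_univ, true_and]
      refine ⟨hqp, ?_⟩
      intro hmem
      obtain ⟨-, -, d, hd, hdu, hdl⟩ := mem_filter.1 hmem
      obtain ⟨c', hc', hcu', hcv', hcw', hcM'⟩ := cubic_of hBas hRun hCub hIrd a hPI n hnc hn hD
        N hN d hd (by rw [hdu]; exact hpR)
      have hCF' : Zc a c' ∈ F := by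
        simp only [F, mem_filter, mem_univ, true_and]
        exact ⟨c', hc', rfl, hcM'⟩
      have hEq : Zc a c = Zc a c' := by
        by_contra hne
        apply hpS
        simp only [hSdef, mem_filter, mem_univ, true_and]
        refine ⟨_, hCF, _, hCF', hne, ?_, ?_⟩
        · rw [← hd0u]; exact hcu
        · rw [← hdu]; exact hcu'
      have hqin : q ∈ ln a d.u d.v := by
        rw [hdl]
        exact (hB2 p q hqp.symm).2
      rw [(hGdw ι a hPI d hd.1).2.2.2.2] at hqin
      simp only [mem_insert, mem_singleton] at hqin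
      apply hq'
      rw [hEq]
      rcases hqin with rfl | rfl | rfl
      · exact hcu'
      · exact hcv'
      · exact hcw'
    have hcard := Finset.card_le_card hsub
    rw [Finset.card_sdiff_of_subset (Finset.subset_univ _), Finset.card_univ, ← hnc] at hcard
    omega
  · exfalso
    push Not at hemp
    have hall : univ.erase p ⊆ Q := by
      intro q hq
      have hqp : q ≠ p := (mem_erase.1 hq).1
      simp only [Q, mem_filter, mem_univ, true_and]
      refine ⟨hqp, ?_⟩
      intro hmem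
      obtain ⟨-, -, d, hd, hdu, -⟩ := mem_filter.1 hmem
      exact hemp d hd hdu
    have hcard := Finset.card_le_card hall
    rw [Finset.card_erase_of_mem (mem_univ _), Finset.card_univ, ← hnc] at hcard
    omega

end Pool.Agent.GTO.H38
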