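import Pool.Agent.Helper52_GTO.BAS
import Pool.Agent.Helper56_GTO.DEL
import Pool.Agent.Helper9_GTO.CIR
import Pool.Agent.Helper56_GTO.TOT
import Pool.Agent.Helper56_GTO.FarS
import Pool.Agent.Helper3_GTO.MEL
import Pool.Agent.Helper7_GTO.TRI
import Pool.Agent.Helper60_GTO.GDW
import Pool.Agent.Helper60_GTO.NBR
import Pool.Agent.Helper60_GTO.FLP
import Pool.Agent.Helper20_GTO.UNQ
import Pool.Agent.Helper62_GTO.COL
import Pool.Agent.Helper30_GTO.VTX
import Pool.Agent.Helper44_GTO.EBD
import Pool.Agent.Helper27_GTO.CN6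
import Pool.Agent.Helper21_GTO.CNN
import Pool.Agent.Helper90_GTO.LVX
import Pool.Agent.Helper7_GTO.DIS
import Pool.Agent.Helper44_GTO.RUN
import Pool.Agent.Helper56_GTO.LNF
import Pool.Agent.Helper18_GTO.CUB
import Pool.Agent.Helper48_GTO.BZ9
import Pool.Agent.Helper97_GTO.ZZZ
import Pool.Agent.Helper16_GTO.IRD
import Pool.Agent.Helper18_GTO.FAM
import Pool.Agent.Helper17_GTO.NUM
import Pool.Agent.Helper38_GTO.ST1
import Pool.Agent.Helper97_GTO.UPX
import Pool.Agent.Helper97_GTO.UPP
import Pool.Agent.Helper26_GTO.GRP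
import Pool.Agent.Helper17_GTO.TNG
import Pool.Agent.Helper46_GTO.LN3
import Pool.Agent.Helper46_GTO.SGL
import Pool.Agent.Helper90_GTO.FX3
import Pool.Agent.Helper92_GTO.TGV
import Pool.Agent.Helper84_GTO.CT6
import Pool.Agent.Helper46_GTO.OFF
import Pool.Agent.Helper52_GTO.QZB
import Pool.Agent.Helper89_GTO.MIS
import Pool.Agent.Helper7_GTO.TAN
import Pool.Agent.Helper92_GTO.LCZ
import Pool.Agent.Helper84_GTO.FIN
import Pool.Agent.Helper52_GTO.LOW
import Pool.Agent.Helper20_GTO.YBD
import Pool.Agent.Helper12_GTO.NEA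
import Pool.Agent.Helper33_GTO.STC
import Pool.Agent.Helper7_GTO.GMN
import Pool.Agent.Helper5_GTO.CLD
import Pool.Agent.Helper7_GTO.FRM
import Pool.Agent.Helper35_GTO.ZS3
import Pool.Agent.Helper35_GTO.CRV
import Pool.Agent.Helper46_GTO.EXI
import Pool.Agent.Helper84_GTO.ORC
import Pool.Agent.Helper56_GTO.CHA
import Pool.Agent.Helper38_GTO.DIJ

/-! Squad GTO: the orchard theorem for all `n ≥ 120000`. -/

namespace Pool.Agent.GTO.H38

open Finset
open scoped Classical

theorem main : OrcStmt := by
  have bas := H52.bas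
  have del := H56.del
  have cir := H09.cir bas del
  have tot := H56.tot bas cir
  have far := H56.farS
  have mel := H3.mel bas cir tot far
  have tri := H7.tri far
  have gdw := H60.gdw
  have nbr := H60.nbr
  have flp := H60.flpp
  have unq := H20.unq gdw
  have col := H62.col unq
  have vtx := H30.vtx bas tot
  have ebd := H44.ebdS bas mel tri gdw nbr vtx unq
  have cn6 := H27.cn6 nbr flp unq
  have cnn := H21.cnn cn6 col
  have lvx := H90.lvx bas cir gdw unq
  have dis := H7.dis
  have run := H44.runS bas gdw col dis unq flp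
  have lnf := H56.lnf bas
  have cha := H56.cha lnf
  have cub := H18.cub_ bas cha
  have bz9 := H48.bz9
  have bz6 := H48.bz6
  have zzz := H97.zzz bas lnf bz9
  have ird := H16.ird lnf
  have fam := H18.fam
  have num := H17.num
  have st1 := H38.st1 bas cnn lvx run cub zzz ird fam num ebd gdw
  have upx := H97.upx col cn6 run cub zzz
  have upp := H97.upp upx lvx gdw ebd
  have grp := H26.grp
  have tng := H17.tng bz6
  have ln3 := H46.ln3 lnf
  have sgl := H46.sgl bas mel
  have fx3 := H90.fx3 bas ln3 sgl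
  have tgv := H92.tgv
  have ct6 := H84.ct6 bas tng ln3 tgv
  have off := H46.off bas
  have qzb := H52.qzb ct6 off tgv
  have mis := H89.mis ct6
  have tan := H7.tan ct6 fx3
  have dij := H38.dij
  have lcz := H92.lcz bas ct6 off tgv
  have fin := H84.fin bas qzb mis tan dij lcz
  have low := H52.low
  have ybd := H20.ybd low
  have nea := H12.nea bas
  have stc := H33.stc nea
  have gmn := H7.gmn st1 upp ybd grp stc fin
  have cld := H5.cld
  have frm := H7.frm cld
  have zs3 := H35.zs3
  have crv := H35.crv cld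
  have exi := H46.exi crv zs3
  exact H84.orc gmn frm exi

end Pool.Agent.GTO.H38

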