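import Pool.Agent.GTO.StmtsD

/-! Squad GTO: THL, three lines together. -/

namespace Pool.Agent.GTO.B3.H38

open Finset Pool.Agent.GTO
open scoped Classical

theorem thl (bas : BasStmt) : ThlStmt := by
  intro ι _ a ha n L3 hD hL T hT hc
  obtain ⟨-, -, -, -, -, hb⟩ := bas
  obtain ⟨-, -, -, -, -, hD2, h2⟩ := hb ι a ha
  -- the lines of T with card ≠ 3
  have h1 : ∑ ℓ ∈ T.filter (fun ℓ => ℓ.card ≠ 3), ℓ.card * (ℓ.card - 1) ≤ D2 a := by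
    rw [hD2]
    exact Finset.sum_le_sum_of_subset (Finset.filter_subset_filter _ hT)
  have h3 : ∑ ℓ ∈ T.filter (fun ℓ => ¬ ℓ.card ≠ 3), ℓ.card * (ℓ.card - 1) ≤ 18 := by
    have : ∀ ℓ ∈ T.filter (fun ℓ => ¬ ℓ.card ≠ 3), ℓ.card * (ℓ.card - 1) = 6 := by
      intro ℓ hℓ
      have := (Finset.mem_filter.1 hℓ).2
      have h : ℓ.card = 3 := by omega
      rw [h]
    rw [Finset.sum_congr rfl this, Finset.sum_const, smul_eq_mul]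
    have : (T.filter (fun ℓ => ¬ ℓ.card ≠ 3)).card ≤ 3 :=
      (Finset.card_filter_le _ _).trans hc
    omega
  have h4 : ∑ ℓ ∈ T, ℓ.card * (ℓ.card - 1) ≤ 2 * n + 18 := by
    rw [← Finset.sum_filter_add_sum_filter_not T (fun ℓ => ℓ.card ≠ 3)]
    omega
  -- squares
  have h5 : ∑ ℓ ∈ T, ℓ.card * ℓ.card ≤ 2 * n + 18 + ∑ ℓ ∈ T, ℓ.card := by
    have : ∑ ℓ ∈ T, ℓ.card * ℓ.card = ∑ ℓ ∈ T, ℓ.card * (ℓ.card - 1) + ∑ ℓ ∈ T, ℓ.card := by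
      rw [← Finset.sum_add_distrib]
      refine Finset.sum_congr rfl fun ℓ hℓ => ?_
      have := h2 ℓ (hT hℓ)
      obtain ⟨m, hm⟩ : ∃ m, ℓ.card = m + 1 := ⟨ℓ.card - 1, by omega⟩
      rw [hm]
      simp
      ring
    omega
  have h6 : (∑ ℓ ∈ T, ℓ.card) ^ 2 ≤ T.card * ∑ ℓ ∈ T, ℓ.card ^ 2 :=
    sq_sum_le_card_mul_sum_sq
  have h7 : T.card * ∑ ℓ ∈ T, ℓ.card ^ 2 ≤ 3 * ∑ ℓ ∈ T, ℓ.card ^ 2 := Nat.mul_le_mul_right _ hc
  have h8 : ∑ ℓ ∈ T, ℓ.card ^ 2 = ∑ ℓ ∈ T, ℓ.card * ℓ.card :=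
    Finset.sum_congr rfl fun _ _ => sq _
  rw [h8] at h6 h7
  by_contra hlt
  push Not at hlt
  set s := ∑ ℓ ∈ T, ℓ.card with hs
  have h9 : s * s ≤ 3 * (2 * n + 18 + s) := by nlinarith [h6, h7, h5]
  have h10 : L3 + 1 ≤ s := hlt
  have h11 : 3 ≤ L3 + 1 := by
    by_contra h
    push Not at h
    have : L3 + 1 ≤ 2 := by omega
    nlinarith
  obtain ⟨d, hd⟩ := Nat.exists_eq_add_of_le h10
  rw [hd] at h9
  nlinarith [Nat.zero_le d, Nat.zero_le (d * d), Nat.mul_le_mul_left d h11]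

end Pool.Agent.GTO.B3.H38
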