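import Pool.Agent.Helper38_GTO.Main
import Pool.Agent.Helper38_GTO.ST2
import Pool.Agent.Helper38_GTO.THL
import Pool.Agent.Helper76_GTO.FA2
import Pool.Agent.Helper15_GTO.NM2
import Pool.Agent.Helper16_GTO.IR2
import Pool.Agent.Helper26_GTO3.YBD
import Pool.Agent.Helper26_GTO3.NEA
import Pool.Agent.Helper26_GTO3.STC
import Pool.Agent.Helper26_GTO3.FIN
import Pool.Agent.Helper26_GTO3.GMN
import Pool.Agent.Helper26_GTO3.ORC

/-! Squad GTO: the orchard theorem for all `n ≥ 30000`. -/

namespace Pool.Agent.GTO.B3.H38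

open Finset Pool.Agent.GTO
open scoped Classical

theorem main3 : B3.OrcStmt := by
  have bas := H52.bas
  have fa2 := B3.H76.fa2
  have thl := B3.H38.thl
  have del := H56.del
  have cir := H09.cir bas del
  have tot := H56.tot bas cir
  have far := H56.farS
  have mel := H3.mel bas cir tot far
  have tri := H7.tri far
  have gdw := H60.gdw
  have nbr := H60.nbr
  have flp := H60.flpp
  have unq := H20.unq gdw
  have col := H62.col unq
  have vtx := H30.vtx bas tot
  have ebd := H44.ebdS bas mel tri gdw nbr vtx unq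
  have cn6 := H27.cn6 nbr flp unq
  have cnn := H21.cnn cn6 col
  have lvx := H90.lvx bas cir gdw unq
  have dis := H7.dis
  have run := H44.runS bas gdw col dis unq flp
  have lnf := H56.lnf bas
  have cha := H56.cha lnf
  have cub := H18.cub_ bas cha
  have bz9 := H48.bz9
  have bz6 := H48.bz6
  have zzz := H97.zzz bas lnf bz9
  have ir2 := H16.ir2 lnf
  have nm2 := B3.H15.nm2
  have st1 := B3.H38.st2 bas cnn lvx run cub zzz ir2 fa2 nm2 (thl bas) ebd gdw
  have upx := H97.upx col cn6 run cub zzz
  have upp := H97.upp upx lvx gdw ebd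
  have grp := H26.grp
  have tng := H17.tng bz6
  have ln3 := H46.ln3 lnf
  have sgl := H46.sgl bas mel
  have fx3 := H90.fx3 bas ln3 sgl
  have tgv := H92.tgv
  have ct6 := H84.ct6 bas tng ln3 tgv
  have off := H46.off bas
  have qzb := H52.qzb ct6 off tgv
  have mis := H89.mis ct6
  have tan := H7.tan ct6 fx3
  have dij := H38.dij
  have lcz := H92.lcz bas ct6 off tgv
  have fin := B3.H26.fin bas qzb mis tan dij lcz
  have low := H52.low
  have ybd := B3.H26.ybd low
  have nea := B3.H26.nea bas
  have stc := B3.H26.stc nea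
  have gmn := B3.H26.gmn st1 upp ybd grp stc fin
  have cld := H5.cld
  have frm := H7.frm cld
  have zs3 := H35.zs3
  have crv := H35.crv cld
  have exi := H46.exi crv zs3
  exact B3.H26.orc gmn frm exi

end Pool.Agent.GTO.B3.H38
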